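import Pool.Agent.helper64.QF.Spec

set_option autoImplicit false

namespace Pool.Agent.helper64.QF

open Metric MeasureTheory Set Filter Topology
open Pool.Agent.helper37.PR

theorem NEM : NEM_stmt := by
  intro n p τ
  let co : Fin n → (C(Icc (0 : ℝ) τ, E n) →L[ℂ] C(Icc (0 : ℝ) τ, ℂ)) := fun i =>
    ContinuousLinearMap.compLeftContinuous ℂ (Icc (0 : ℝ) τ) (EuclideanSpace.proj i : E n →L[ℂ] ℂ)
  let em : Fin n → (C(Icc (0 : ℝ) τ, ℂ) →L[ℂ] C(Icc (0 : ℝ) τ, E n)) := fun j =>
    ContinuousLinearMap.compLeftContinuous ℂ (Icc (0 : ℝ) τ)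
      (ContinuousLinearMap.toSpanSingleton ℂ (EuclideanSpace.single j (1 : ℂ) : E n))
  have hco : ∀ i x s, co i x s = x s i := fun i x s => rfl
  have hem : ∀ j y s, em j y s = y s • (EuclideanSpace.single j (1 : ℂ) : E n) := fun j y s => rfl
  refine ⟨fun x => ∑ j, em j (MvPolynomial.aeval (fun i => co i x) (p j)), ?_, ?_⟩
  · intro x s
    have h1 : ∀ j, (MvPolynomial.aeval (fun i => co i x) (p j) : C(Icc (0 : ℝ) τ, ℂ)) s = ev (p j) (x s) := by
      intro j
      have h2 := MvPolynomial.comp_aeval_apply (fun i => co i x) (ContinuousMap.evalAlgHom ℂ ℂ s) (p j)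
      have h3 : (ContinuousMap.evalAlgHom ℂ ℂ s) (MvPolynomial.aeval (fun i => co i x) (p j)) =
        (MvPolynomial.aeval (fun i => co i x) (p j) : C(Icc (0 : ℝ) τ, ℂ)) s := rfl
      rw [← h3, h2]
      unfold ev
      rw [MvPolynomial.aeval_def, MvPolynomial.eval, MvPolynomial.coe_eval₂Hom]
      rfl
    ext k
    rw [ContinuousMap.sum_apply]
    simp only [hem, h1, pm]
    rw [WithLp.ofLp_sum, Finset.sum_apply]
    simp
  · intro x _
    apply Finset.analyticAt_fun_sum
    intro j _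
    apply ((em j).analyticAt _).comp'
    exact AnalyticAt.aeval_mvPolynomial (fun i => (co i).analyticAt x) (p j)

end Pool.Agent.helper64.QF
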