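import Pool.Agent.helper64.QF.Spec

set_option autoImplicit false

namespace Pool.Agent.helper64.QF

open Metric MeasureTheory Set Filter Topology
open Pool.Agent.helper37.PR

theorem SG0_qA_smul {n : ℕ} (A : E n →L[ℂ] E n) (r : ℝ) (x : E n) :
    qA A ((r : ℂ) • x) = r ^ 2 * qA A x := by
  unfold qA
  rw [map_smul, inner_smul_left, inner_smul_right, Complex.conj_ofReal, ← mul_assoc,
    ← Complex.ofReal_mul, Complex.re_ofReal_mul]
  ring

theorem SG0_qA_neg {n : ℕ} (A : E n →L[ℂ] E n) (x : E n) : qA A (-x) = qA A x := by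
  unfold qA
  rw [map_neg, inner_neg_left, inner_neg_right, neg_neg]

theorem SG0_qA_zero {n : ℕ} (A : E n →L[ℂ] E n) : qA A 0 = 0 := by
  unfold qA
  simp

theorem SG0_cost_nonneg {n : ℕ} {A : E n →L[ℂ] E n} (hA : ∀ x : E n, 0 ≤ qA A x) (U V : E n)
    {a b : ℝ} (h : Adm U V a b) : 0 ≤ cost A U V a b := by
  unfold cost
  have h1 := hA U
  have h2 := hA V
  have h3 := h.1
  have h4 := h.2.1
  positivity

theorem SG0_bdd {n : ℕ} {A : E n →L[ℂ] E n} (hA : ∀ x : E n, 0 ≤ qA A x) (U V : E n) :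
    BddBelow {x : ℝ | ∃ a b : ℝ, Adm U V a b ∧ x = cost A U V a b} := by
  refine ⟨0, ?_⟩
  rintro x ⟨a, b, h, rfl⟩
  exact SG0_cost_nonneg hA U V h

theorem SG0_adm {n : ℕ} (U V : E n) : ∃ a b : ℝ, Adm U V a b := by
  have hU := norm_nonneg U
  have hV := norm_nonneg V
  set s : ℝ := 1 + ‖U‖ + ‖V‖ with hs
  have hs0 : 0 < s := by positivity
  have h1 : 1 / (2 * s) * ‖U‖ ≤ 1 / 2 := by
    rw [div_mul_eq_mul_div, div_le_div_iff₀ (by positivity) (by norm_num)]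
    nlinarith
  have h2 : 1 / (2 * s) * ‖V‖ ≤ 1 / 2 := by
    rw [div_mul_eq_mul_div, div_le_div_iff₀ (by positivity) (by norm_num)]
    nlinarith
  have h1' : 0 ≤ 1 / (2 * s) * ‖U‖ := by positivity
  have h2' : 0 ≤ 1 / (2 * s) * ‖V‖ := by positivity
  refine ⟨1 / (2 * s), 1 / (2 * s), by positivity, by positivity, by linarith, by linarith, ?_⟩
  have h3 : (1 / (2 * s) * ‖U‖) ^ 2 ≤ (1 / 2) ^ 2 := pow_le_pow_left₀ h1' h1 2
  have h4 : (1 / (2 * s) * ‖V‖) ^ 2 ≤ (1 / 2) ^ 2 := pow_le_pow_left₀ h2' h2 2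
  have h5 : 0 ≤ (1 / (2 * s) * (1 / (2 * s)) * ‖(inner ℂ U V : ℂ)‖) ^ 2 := sq_nonneg _
  linarith

theorem SG0_small (q ε : ℝ) (hq : 0 ≤ q) (hε : 0 < ε) : q / (1 + q / ε) ≤ ε := by
  have h0 : 0 ≤ q / ε := by positivity
  rw [div_le_iff₀ (by positivity)]
  have : ε * (1 + q / ε) = ε + q := by field_simp
  linarith

theorem SG0 : SG0_stmt := by
  intro n A hA
  have h1 : ∀ U V : E n, 0 ≤ sig A U V := by
    intro U V
    unfold sig
    apply Real.sInf_nonneg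
    rintro x ⟨a, b, h, rfl⟩
    exact SG0_cost_nonneg hA U V h
  have h3 : ∀ (U V : E n) (a b : ℝ), Adm U V a b → sig A U V ≤ cost A U V a b := by
    intro U V a b h
    exact csInf_le (SG0_bdd hA U V) ⟨a, b, h, rfl⟩
  refine ⟨h1, SG0_adm, h3, ?_, ?_, ?_, ?_⟩
  · intro U V x h
    obtain ⟨a, b, hab⟩ := SG0_adm U V
    refine le_csInf (s := {x : ℝ | ∃ a b : ℝ, Adm U V a b ∧ x = cost A U V a b}) ⟨cost A U V a b, a, b, hab, rfl⟩ ?_
    rintro y ⟨a, b, h', rfl⟩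
    exact h a b h'
  · intro V
    apply le_antisymm _ (h1 0 V)
    apply le_of_forall_pos_le_add
    intro ε hε
    rw [zero_add]
    have hV := norm_nonneg V
    have hb : (0 : ℝ) < 1 / (1 + ‖V‖) := by positivity
    have hq : 0 ≤ 1 / (1 + ‖V‖) * qA A V := mul_nonneg hb.le (hA V)
    have hqe : 0 ≤ 1 / (1 + ‖V‖) * qA A V / ε := div_nonneg hq hε.le
    have ha : (1 : ℝ) ≤ 1 + 1 / (1 + ‖V‖) * qA A V / ε := by linarith
    have hbV : 1 / (1 + ‖V‖) * ‖V‖ ≤ 1 := by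
      rw [div_mul_eq_mul_div, div_le_one (by positivity)]
      linarith
    have hbV0 : 0 ≤ 1 / (1 + ‖V‖) * ‖V‖ := by positivity
    refine (h3 0 V (1 + 1 / (1 + ‖V‖) * qA A V / ε) (1 / (1 + ‖V‖)) ⟨by linarith, hb, by simp, hbV, ?_⟩).trans ?_
    · rw [norm_zero, mul_zero]
      have : (1 / (1 + ‖V‖) * ‖V‖) ^ 2 ≤ 1 := pow_le_one₀ hbV0 hbV
      have h5 := sq_nonneg ((1 + 1 / (1 + ‖V‖) * qA A V / ε) * (1 / (1 + ‖V‖)) * ‖(inner ℂ (0 : E n) V : ℂ)‖)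
      linarith
    · unfold cost
      rw [SG0_qA_zero, zero_div, zero_add]
      refine le_trans ?_ (SG0_small _ ε hq hε)
      apply div_le_div_of_nonneg_left hq (by linarith)
      nlinarith
  · intro U
    apply le_antisymm _ (h1 U 0)
    apply le_of_forall_pos_le_add
    intro ε hε
    rw [zero_add]
    have hU := norm_nonneg U
    have hqe : 0 ≤ qA A U / ε := div_nonneg (hA U) hε.le
    have haU : 1 / (1 + ‖U‖) * ‖U‖ ≤ 1 := by
      rw [div_mul_eq_mul_div, div_le_one (by positivity)]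
      linarith
    have haU0 : 0 ≤ 1 / (1 + ‖U‖) * ‖U‖ := by positivity
    refine (h3 U 0 (1 / (1 + ‖U‖)) (1 + qA A U / ε) ⟨by positivity, by linarith, haU, by simp, ?_⟩).trans ?_
    · rw [norm_zero, mul_zero]
      have : (1 / (1 + ‖U‖) * ‖U‖) ^ 2 ≤ 1 := pow_le_one₀ haU0 haU
      have h5 := sq_nonneg (1 / (1 + ‖U‖) * (1 + qA A U / ε) * ‖(inner ℂ U (0 : E n) : ℂ)‖)
      linarith
    · unfold cost
      rw [SG0_qA_zero, mul_zero, zero_div, add_zero]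
      exact SG0_small _ ε (hA U) hε
  · intro U V a b hU hV h
    have hα : 0 < ‖U‖ := norm_pos_iff.mpr hU
    have hβ : 0 < ‖V‖ := norm_pos_iff.mpr hV
    obtain ⟨ha, hb, hau, hbv, hsum⟩ := h
    have nU : ‖(((‖U‖⁻¹ : ℝ) : ℂ) • U)‖ = 1 := by
      rw [norm_smul, Complex.norm_real, Real.norm_of_nonneg (by positivity), inv_mul_cancel₀ hα.ne']
    have nV : ‖(-(((‖V‖⁻¹ : ℝ) : ℂ) • V))‖ = 1 := by
      rw [norm_neg, norm_smul, Complex.norm_real, Real.norm_of_nonneg (by positivity), inv_mul_cancel₀ hβ.ne']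
    have nI : ‖(inner ℂ (((‖U‖⁻¹ : ℝ) : ℂ) • U) (-(((‖V‖⁻¹ : ℝ) : ℂ) • V)) : ℂ)‖ = ‖U‖⁻¹ * ‖V‖⁻¹ * ‖(inner ℂ U V : ℂ)‖ := by
      rw [inner_neg_right, norm_neg, inner_smul_left, inner_smul_right, norm_mul, norm_mul, Complex.conj_ofReal,
        Complex.norm_real, Complex.norm_real, Real.norm_of_nonneg (by positivity), Real.norm_of_nonneg (by positivity)]
      ring
    rw [nU] at hau hsum
    rw [nV] at hbv hsum
    rw [nI] at hsum
    refine ⟨⟨by positivity, by positivity, ?_, ?_, ?_⟩, ?_⟩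
    · rw [div_mul_cancel₀ _ hα.ne']; linarith
    · rw [div_mul_cancel₀ _ hβ.ne']; linarith
    · rw [div_mul_cancel₀ _ hα.ne', div_mul_cancel₀ _ hβ.ne']
      have e1 : a / ‖U‖ * (b / ‖V‖) * ‖(inner ℂ U V : ℂ)‖ = a * b * (‖U‖⁻¹ * ‖V‖⁻¹ * ‖(inner ℂ U V : ℂ)‖) := by
        field_simp
      rw [e1]
      linarith
    · unfold cost
      rw [SG0_qA_smul, SG0_qA_neg, SG0_qA_smul]
      field_simp

end Pool.Agent.helper64.QF
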